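import Mathlib
import Pool.Agent.H22.Pi.All

/-!
# The first series for `1/π` with the polynomials `S_k^(2)`

`∑ (7k+1) S_k^(2)(1/11) / 9^k = 5445 / (104 √39 π)`.
-/

set_option autoImplicit false

namespace Pool.Agent.Results.MP_e49510_nt.FirstSeries

open Pool.Agent.H22.Pi

/-- **Q1.** With `S_k(x) = ∑_{i,j ≤ k} C(k,i)^2 C(k,j)^2 C(i+j,i) x^(i+j)`, the series
`∑ (7k+1) S_k(1/11) / 9^k` converges and its sum is `5445 / (104 √39 π)`. -/
theorem result :
    HasSum (fun k : ℕ => (7 * (k : ℝ) + 1) *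
      (∑ i ∈ Finset.range (k + 1), ∑ j ∈ Finset.range (k + 1),
        (k.choose i : ℝ) ^ 2 * (k.choose j : ℝ) ^ 2 * ((i + j).choose i : ℝ) *
          (1 / 11 : ℝ) ^ (i + j)) / 9 ^ k)
      (5445 / (104 * √39 * Real.pi)) :=
  finalStmt.1

end Pool.Agent.Results.MP_e49510_nt.FirstSeries
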